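import Pool.Agent.Lib_helper54.Shadow.Cap
import Pool.Agent.Lib_helper54.Shadow.NoEmb

/-!
# Coordinate shadows of embedded balls that are spheres

For `k ≥ 1` we determine `N(k,d)`, the largest number of coordinate shadows of an embedded
`k`-ball in `ℝ^d` which can simultaneously be embedded `k`-spheres: it is `d` if `d ≥ k + 2`
and `0` otherwise.
-/

namespace Pool.Agent.Results.MP_537073_gt.ShadowNumber

open Set Metric Topology Module Pool.Agent.Lib_helper54.Shadow

/-- The orthogonal projection `π_i` of `ℝ^d` to the coordinate hyperplane `x_i = 0`. -/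
noncomputable def proj {d : ℕ} (i : Fin d) (x : EuclideanSpace ℝ (Fin d)) :
    EuclideanSpace ℝ (Fin d) :=
  WithLp.toLp 2 (Function.update (WithLp.ofLp x) i 0)

/-- `B` is a `k`-ball embedded in `ℝ^d`: the image of the closed unit ball of `ℝ^k` under a
topological embedding. -/
def IsEmbeddedBall (k d : ℕ) (B : Set (EuclideanSpace ℝ (Fin d))) : Prop :=
  ∃ f : closedBall (0 : EuclideanSpace ℝ (Fin k)) 1 → EuclideanSpace ℝ (Fin d),
    IsEmbedding f ∧ range f = B

/-- `A` is an embedded `k`-sphere: the image of the unit sphere of `ℝ^(k+1)` under a topological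
embedding. -/
def IsEmbeddedSphere (k d : ℕ) (A : Set (EuclideanSpace ℝ (Fin d))) : Prop :=
  ∃ g : sphere (0 : EuclideanSpace ℝ (Fin (k + 1))) 1 → EuclideanSpace ℝ (Fin d),
    IsEmbedding g ∧ range g = A

/-- The number of coordinate shadows `π_i(B)` of `B` which are embedded `k`-spheres. -/
noncomputable def sphereShadows (k d : ℕ) (B : Set (EuclideanSpace ℝ (Fin d))) : ℕ :=
  Set.ncard {i : Fin d | IsEmbeddedSphere k d (proj i '' B)}

/-- The set of values of `sphereShadows k d B` over all embedded `k`-balls `B` in `ℝ^d`. -/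
def counts (k d : ℕ) : Set ℕ :=
  {m | ∃ B : Set (EuclideanSpace ℝ (Fin d)), IsEmbeddedBall k d B ∧ sphereShadows k d B = m}

/-- `N(k,d)`, the largest number of coordinate shadows of an embedded `k`-ball in `ℝ^d` that are
embedded `k`-spheres (and `0` if `ℝ^d` contains no embedded `k`-ball). -/
noncomputable def N (k d : ℕ) : ℕ := sSup (counts k d)

lemma continuous_proj {d : ℕ} (i : Fin d) : Continuous (proj i) := by
  unfold proj
  have h1 : Continuous fun x : EuclideanSpace ℝ (Fin d) => Function.update (WithLp.ofLp x) i 0 :=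
    (PiLp.continuous_ofLp 2 _).update i continuous_const
  exact (PiLp.continuous_toLp 2 _).comp h1

lemma proj_apply_self {d : ℕ} (i : Fin d) (x : EuclideanSpace ℝ (Fin d)) : proj i x i = 0 := by
  simp [proj]

/-- No shadow is a `k`-sphere if `d ≤ k + 1`. -/
lemma not_sphere {k d : ℕ} (hd : d ≤ k + 1) (i : Fin d) (B : Set (EuclideanSpace ℝ (Fin d))) :
    ¬ IsEmbeddedSphere k d (proj i '' B) := by
  rintro ⟨g, hg, hgr⟩
  set L : EuclideanSpace ℝ (Fin d) →ₗ[ℝ] ℝ := (EuclideanSpace.proj i : _ →L[ℝ] ℝ).toLinearMap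
    with hL
  have hLi : ∀ x, L x = x i := fun x => rfl
  have hg0 : ∀ x, g x ∈ LinearMap.ker L := by
    intro x
    have : g x ∈ proj i '' B := hgr ▸ mem_range_self x
    obtain ⟨b, -, hb⟩ := this
    rw [LinearMap.mem_ker, hLi, ← hb, proj_apply_self]
  have hLne : L ≠ 0 := by
    intro h0
    have h1 : L (EuclideanSpace.single i 1) = 0 := by rw [h0]; rfl
    rw [hLi] at h1
    simp at h1
  have hfr : finrank ℝ (LinearMap.ker L) < finrank ℝ (EuclideanSpace ℝ (Fin (k + 1))) := by
    have h1 := Module.Dual.finrank_ker_add_one_of_ne_zero (f := L) hLne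
    rw [finrank_euclideanSpace_fin] at h1 ⊢
    omega
  refine no_embedding hfr (fun x => ⟨g x, hg0 x⟩) (hg.continuous.subtype_mk hg0) ?_
  intro x y hxy
  exact hg.injective (congrArg Subtype.val hxy)

/-- All shadows can be `k`-spheres if `d ≥ k + 2`. -/
lemma exists_full {k d : ℕ} (hk : 1 ≤ k) (hd : k + 2 ≤ d) :
    ∃ B : Set (EuclideanSpace ℝ (Fin d)), IsEmbeddedBall k d B ∧
      ∀ i, IsEmbeddedSphere k d (proj i '' B) := by
  obtain ⟨b, hb1, hb2, hb3⟩ := exists_all hk hd
  have hc : Continuous (fun w => (WithLp.toLp 2 (b w) : EuclideanSpace ℝ (Fin d))) :=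
    (PiLp.continuous_toLp 2 _).comp hb1
  refine ⟨range fun w => (WithLp.toLp 2 (b w) : EuclideanSpace ℝ (Fin d)), ⟨_, ?_, rfl⟩, ?_⟩
  · exact (hc.isClosedEmbedding fun w w' hww => hb2 (WithLp.toLp_injective 2 hww)).isEmbedding
  · intro i
    obtain ⟨s, hs1, hs2, hs3⟩ := hb3 i
    have hsc : Continuous (fun w => (WithLp.toLp 2 (s w) : EuclideanSpace ℝ (Fin d))) :=
      (PiLp.continuous_toLp 2 _).comp hs1
    refine ⟨fun w => WithLp.toLp 2 (s w), ?_, ?_⟩
    · exact (hsc.isClosedEmbedding fun w w' hww => hs2 (WithLp.toLp_injective 2 hww)).isEmbedding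
    · apply Subset.antisymm
      · rintro _ ⟨w, rfl⟩
        have : s w ∈ pr i '' range b := hs3 ▸ mem_range_self w
        obtain ⟨_, ⟨v, rfl⟩, hv⟩ := this
        refine ⟨_, ⟨v, rfl⟩, ?_⟩
        simp only [proj, ← hv]
        rfl
      · rintro _ ⟨_, ⟨v, rfl⟩, rfl⟩
        have : pr i (b v) ∈ range s := hs3 ▸ ⟨b v, mem_range_self v, rfl⟩
        obtain ⟨w, hw⟩ := this
        refine ⟨w, ?_⟩
        simp only [proj, hw]
        rfl

/-- There is an embedded `k`-ball in `ℝ^d` if `k ≤ d`. -/
lemma exists_ball {k d : ℕ} (hd : k ≤ d) :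
    ∃ B : Set (EuclideanSpace ℝ (Fin d)), IsEmbeddedBall k d B := by
  have hc : Continuous (fun w : closedBall (0 : EuclideanSpace ℝ (Fin k)) 1 =>
      (WithLp.toLp 2 (fun i : Fin d => if h : (i : ℕ) < k then
        (w : EuclideanSpace ℝ (Fin k)) ⟨i, h⟩ else 0) : EuclideanSpace ℝ (Fin d))) := by
    refine (PiLp.continuous_toLp 2 _).comp (continuous_pi fun i => ?_)
    by_cases h : (i : ℕ) < k
    · simp only [h, dif_pos]
      fun_prop
    · simp only [h, dif_neg, not_false_eq_true]
      exact continuous_const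
  refine ⟨_, _, (hc.isClosedEmbedding ?_).isEmbedding, rfl⟩
  intro w w' hww
  have h1 := WithLp.toLp_injective 2 hww
  apply Subtype.ext
  ext i
  have h2 := congrFun h1 ⟨i, lt_of_lt_of_le i.2 hd⟩
  simpa using h2

/-- **The number `N(k,d)` for all `k ≥ 1` and all `d`.** It is `d` if `d ≥ k + 2` and `0`
otherwise; it is attained as soon as `ℝ^d` contains an embedded `k`-ball at all, that is if
`k ≤ d`. -/
theorem result (k d : ℕ) (hk : 1 ≤ k) :
    N k d = (if k + 2 ≤ d then d else 0) ∧ (k ≤ d → IsGreatest (counts k d) (N k d)) := by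
  have hle : ∀ m ∈ counts k d, m ≤ if k + 2 ≤ d then d else 0 := by
    rintro m ⟨B, -, rfl⟩
    split_ifs with hd
    · unfold sphereShadows
      calc _ ≤ (univ : Set (Fin d)).ncard := ncard_le_ncard (subset_univ _)
        _ = d := by rw [ncard_univ, Nat.card_eq_fintype_card, Fintype.card_fin]
    · have : {i : Fin d | IsEmbeddedSphere k d (proj i '' B)} = ∅ := by
        apply eq_empty_of_forall_notMem
        intro i
        exact not_sphere (by omega) i B
      unfold sphereShadows
      rw [this, ncard_empty]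
  have hmem : k ≤ d → (if k + 2 ≤ d then d else 0) ∈ counts k d := by
    intro hkd
    split_ifs with hd
    · obtain ⟨B, hB, hs⟩ := exists_full hk hd
      refine ⟨B, hB, ?_⟩
      have : {i : Fin d | IsEmbeddedSphere k d (proj i '' B)} = univ :=
        eq_univ_of_forall hs
      unfold sphereShadows
      rw [this, ncard_univ, Nat.card_eq_fintype_card, Fintype.card_fin]
    · obtain ⟨B, hB⟩ := exists_ball hkd
      refine ⟨B, hB, ?_⟩
      have := hle _ ⟨B, hB, rfl⟩
      rw [if_neg hd] at this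
      omega
  have hN : N k d = if k + 2 ≤ d then d else 0 := by
    by_cases hkd : k ≤ d
    · exact IsGreatest.csSup_eq ⟨hmem hkd, hle⟩
    · have h0 : (if k + 2 ≤ d then d else 0) = 0 := if_neg (by omega)
      rw [h0]
      rw [h0] at hle
      unfold N
      rcases (counts k d).eq_empty_or_nonempty with he | he
      · rw [he, csSup_empty]; rfl
      · have h1 := csSup_le he hle
        omega
  exact ⟨hN, fun hkd => by rw [hN]; exact ⟨hmem hkd, hle⟩⟩

end Pool.Agent.Results.MP_537073_gt.ShadowNumber
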